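import Pool.Agent.AmpDual.Bidual

set_option autoImplicit false

/-! MP_e00350_co: `A_{k,2,n}(Z)` is the bidual and the intersection of the Grassmannian with the
exterior cyclic polytope, for all `k`. -/

namespace Pool.Agent.Results.MP_e00350_co.AmplituhedronConvex

open Pool.Agent.AmpDual

theorem result (k n : ℕ) (hn : k + 2 ≤ n) (Z : Matrix (Fin (k + 2)) (Fin n) ℝ)
    (hZ : MaxMinorsPos Z) :
    amplituhedron Z = dualAmp (twist Z) ∧ amplituhedron Z = hullSection Z :=
  ⟨(bidual hn hZ).symm, amp_eq_hull hn hZ⟩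

end Pool.Agent.Results.MP_e00350_co.AmplituhedronConvex
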