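import Pool.Agent.AmpDual.Topo

set_option autoImplicit false

/-! MP_e00350_co: the extendable dual amplituhedron for `m = 2`, all `k`, all `n`, all `Z`. -/

namespace Pool.Agent.Results.MP_e00350_co.DualIsTwistedAmplituhedron

open Pool.Agent.AmpDual

theorem result (k n : ℕ) (hk : 1 ≤ k) (hn : k + 2 ≤ n) (Z : Matrix (Fin (k + 2)) (Fin n) ℝ)
    (hZ : MaxMinorsPos Z) :
    MaxMinorsPos (twist Z) ∧
      dualAmp Z = amplituhedron (twist Z) ∧
      dualAmp Z = closure (flipRegion (twist Z)) :=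
  ⟨twist_pos hn hZ, dual_eq_amp hn hZ, dual_eq_closure hk hn hZ⟩

end Pool.Agent.Results.MP_e00350_co.DualIsTwistedAmplituhedron
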