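import Pool.Agent.AmpDual.Literal

set_option autoImplicit false

/-! MP_e00350_co: the identity as literally worded fails for every `k` and `n`. -/

namespace Pool.Agent.Results.MP_e00350_co.ZeroFlipIdentityFails

open Pool.Agent.AmpDual

theorem result (k n : ℕ) (hk : 1 ≤ k) (hn : k + 2 ≤ n) :
    ∃ Z : Matrix (Fin (k + 2)) (Fin n) ℝ, MaxMinorsPos Z ∧
      dualAmp Z ≠ closure (zeroFlipRegion Z) :=
  literal_false hk hn

end Pool.Agent.Results.MP_e00350_co.ZeroFlipIdentityFails
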